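import Pool.Agent.Helper70.EQ.Goals

/-!
# Packet EQ-N2 (MP_20ee5e_ag): the numerical condition for `r ≥ 3`, `n ≥ r²`
-/

set_option autoImplicit false

namespace Pool.Agent.Helper69.EQ.N2

open Pool.Agent.Helper70.EQ

theorem tj_le (r M : ℕ) (hr : 1 ≤ r) :
    tj r M ≤ (r : ℝ) ^ M * (1 + (((r : ℝ) - 1) / r) ^ M) ^ r := by
  have hr0 : (0 : ℝ) < r := by exact_mod_cast hr
  have hr1 : (1 : ℝ) ≤ r := by exact_mod_cast hr
  unfold tj
  rw [add_pow, Finset.mul_sum]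
  refine Finset.sum_le_sum fun j hj => ?_
  have hj' : j ≤ r := Nat.lt_succ_iff.1 (Finset.mem_range.1 hj)
  rw [one_pow, one_mul]
  have hb : (j : ℝ) / r ≤ (((r : ℝ) - 1) / r) ^ (r - j) := by
    have h := one_add_mul_le_pow (a := -(1 / (r : ℝ))) (by
      have : 1 / (r : ℝ) ≤ 1 := by
        rw [div_le_one hr0]; exact hr1
      linarith) (r - j)
    have e1 : 1 + ((r - j : ℕ) : ℝ) * -(1 / (r : ℝ)) = (j : ℝ) / r := by
      rw [Nat.cast_sub hj']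
      field_simp
      ring
    have e2 : (1 + -(1 / (r : ℝ))) = ((r : ℝ) - 1) / r := by
      field_simp
      ring
    rw [e1, e2] at h
    exact h
  have hb2 : ((j : ℝ) / r) ^ M ≤ ((((r : ℝ) - 1) / r) ^ M) ^ (r - j) := by
    rw [← pow_mul, mul_comm M, pow_mul]
    exact pow_le_pow_left₀ (by positivity) hb M
  have hb3 : (j : ℝ) ^ M ≤ (r : ℝ) ^ M * ((((r : ℝ) - 1) / r) ^ M) ^ (r - j) := by
    rw [div_pow, div_le_iff₀ (by positivity)] at hb2
    linarith [mul_comm ((r : ℝ) ^ M) (((((r : ℝ) - 1) / r) ^ M) ^ (r - j))]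
  have hC : (0 : ℝ) ≤ (r.choose j : ℝ) := by positivity
  calc (r.choose j : ℝ) * (j : ℝ) ^ M
      ≤ (r.choose j : ℝ) * ((r : ℝ) ^ M * ((((r : ℝ) - 1) / r) ^ M) ^ (r - j)) :=
        mul_le_mul_of_nonneg_left hb3 hC
    _ = (r : ℝ) ^ M * (((((r : ℝ) - 1) / r) ^ M) ^ (r - j) * (r.choose j : ℝ)) := by ring

theorem exp_quarter : Real.exp (1 / 4) ≤ 4 / 3 := by
  have h := Real.add_one_le_exp (-(1 / 4 : ℝ))
  rw [Real.exp_neg] at h
  have hp := Real.exp_pos (1 / 4 : ℝ)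
  have h2 : (3 / 4 : ℝ) * Real.exp (1 / 4) ≤ 1 := by
    have h3 : (3 / 4 : ℝ) ≤ (Real.exp (1 / 4))⁻¹ := by linarith
    calc (3 / 4 : ℝ) * Real.exp (1 / 4) ≤ (Real.exp (1 / 4))⁻¹ * Real.exp (1 / 4) :=
          mul_le_mul_of_nonneg_right h3 hp.le
      _ = 1 := inv_mul_cancel₀ hp.ne'
  linarith

theorem pow_le_four_thirds (r : ℕ) (y : ℝ) (hy : 0 ≤ y) (h : r * y ≤ 1 / 4) :
    (1 + y) ^ r ≤ 4 / 3 := by
  have h1 : (1 + y) ^ r ≤ Real.exp y ^ r :=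
    pow_le_pow_left₀ (by linarith) (by linarith [Real.add_one_le_exp y]) r
  rw [← Real.exp_nat_mul] at h1
  exact h1.trans ((Real.exp_le_exp.2 h).trans exp_quarter)

/-- `(1 - 1/r)^r ≤ 1/2` -/
theorem q_pow (r : ℕ) (hr : 2 ≤ r) : (((r : ℝ) - 1) / r) ^ r ≤ 1 / 2 := by
  have hr2 : (2 : ℝ) ≤ r := by exact_mod_cast hr
  have hr0 : (0 : ℝ) < r := by linarith
  have hr1 : (0 : ℝ) < (r : ℝ) - 1 := by linarith
  have h := one_add_mul_le_pow (a := 1 / ((r : ℝ) - 1)) (by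
    have : 0 ≤ 1 / ((r : ℝ) - 1) := by positivity
    linarith) r
  have e1 : (1 : ℝ) + 1 / ((r : ℝ) - 1) = r / ((r : ℝ) - 1) := by
    field_simp
    ring
  have e2 : (2 : ℝ) ≤ 1 + r * (1 / ((r : ℝ) - 1)) := by
    have : (1 : ℝ) ≤ r * (1 / ((r : ℝ) - 1)) := by
      rw [mul_one_div, le_div_iff₀ hr1]
      linarith
    linarith
  rw [e1] at h
  have h3 : (2 : ℝ) ≤ (r / ((r : ℝ) - 1)) ^ r := e2.trans h
  have e3 : ((r : ℝ) - 1) / r = (r / ((r : ℝ) - 1))⁻¹ := by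
    rw [inv_div]
  rw [e3, inv_pow, one_div]
  exact inv_anti₀ (by norm_num) h3

theorem r_two_pow (r : ℕ) (hr : 4 ≤ r) : (r : ℝ) * (1 / 2) ^ r ≤ 1 / 4 := by
  induction r, hr using Nat.le_induction with
  | base => norm_num
  | succ k hk ih =>
    have hk' : (4 : ℝ) ≤ k := by exact_mod_cast hk
    rw [pow_succ]
    push_cast
    have hp : (0 : ℝ) < (1 / 2) ^ k := by positivity
    nlinarith

/-- the main smallness -/
theorem small (r M : ℕ) (hr : 3 ≤ r) (hM : r ^ 2 + 1 ≤ M) :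
    (r : ℝ) * (((r : ℝ) - 1) / r) ^ M ≤ 1 / 4 := by
  have hr3 : (3 : ℝ) ≤ r := by exact_mod_cast hr
  have hr0 : (0 : ℝ) < r := by linarith
  have hq0 : 0 ≤ ((r : ℝ) - 1) / r := div_nonneg (by linarith) hr0.le
  have hq1 : ((r : ℝ) - 1) / r ≤ 1 := by
    rw [div_le_one hr0]; linarith
  rcases Nat.eq_or_lt_of_le hr with h3 | h4
  · subst h3
    have h1 : (((3 : ℕ) : ℝ) - 1) / ((3 : ℕ) : ℝ) = 2 / 3 := by norm_num
    rw [h1]
    have h2 : ((2 : ℝ) / 3) ^ M ≤ (2 / 3) ^ 10 :=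
      pow_le_pow_of_le_one (by norm_num) (by norm_num) (by simpa using hM)
    calc (((3 : ℕ) : ℝ)) * (2 / 3) ^ M ≤ ((3 : ℕ) : ℝ) * (2 / 3) ^ 10 :=
          mul_le_mul_of_nonneg_left h2 (by norm_num)
      _ ≤ 1 / 4 := by norm_num
  · have h1 : (((r : ℝ) - 1) / r) ^ M ≤ (((r : ℝ) - 1) / r) ^ (r * r) :=
      pow_le_pow_of_le_one hq0 hq1 (by nlinarith)
    have h2 : (((r : ℝ) - 1) / r) ^ (r * r) ≤ (1 / 2) ^ r := by
      rw [pow_mul]
      exact pow_le_pow_left₀ (by positivity) (q_pow r (by omega)) r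
    calc (r : ℝ) * (((r : ℝ) - 1) / r) ^ M ≤ (r : ℝ) * (1 / 2) ^ r :=
          mul_le_mul_of_nonneg_left (h1.trans h2) hr0.le
      _ ≤ 1 / 4 := r_two_pow r (by omega)

theorem tj_le' (r M : ℕ) (hr : 3 ≤ r) (hM : r ^ 2 + 1 ≤ M) :
    tj r M ≤ 4 / 3 * (r : ℝ) ^ M := by
  have hr3 : (3 : ℝ) ≤ r := by exact_mod_cast hr
  have hr0 : (0 : ℝ) < r := by linarith
  have hq0 : 0 ≤ ((r : ℝ) - 1) / r := div_nonneg (by linarith) hr0.le
  refine (tj_le r M (by omega)).trans ?_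
  rw [mul_comm]
  exact mul_le_mul_of_nonneg_right
    (pow_le_four_thirds r _ (pow_nonneg hq0 M) (small r M hr hM)) (by positivity)

theorem sj_ge (hSR : G_SR) (r M : ℕ) (hr : 3 ≤ r) (hM : r ^ 2 + 1 ≤ M) :
    3 / 4 * (r : ℝ) ^ M ≤ sj r M := by
  have hr3 : (3 : ℝ) ≤ r := by exact_mod_cast hr
  have hr0 : (0 : ℝ) < r := by linarith
  refine le_trans ?_ ((hSR r M).2.2 (by omega))
  have hs := small r M hr hM
  have e : (r : ℝ) * ((r : ℝ) - 1) ^ M = (r : ℝ) ^ M * ((r : ℝ) * (((r : ℝ) - 1) / r) ^ M) := by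
    rw [div_pow]
    field_simp
  rw [e]
  have hp : (0 : ℝ) < (r : ℝ) ^ M := by positivity
  nlinarith

theorem t (hSR : G_SR) : G_N2 := by
  intro n r c hr hn hc
  unfold Pool.Agent.Helper70.EQ.Num
  obtain ⟨M, hM⟩ : ∃ M, n + r = M + 2 := ⟨n + r - 2, by omega⟩
  have e1 : n + r - 1 = M + 1 := by omega
  have e2 : n + r - 2 = M := by omega
  have hMr : r ^ 2 + 1 ≤ M := by omega
  rw [e1, e2, hM]
  have hr3 : (3 : ℝ) ≤ r := by exact_mod_cast hr
  have hn3 : (3 : ℝ) * r ≤ n := by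
    have h1 : (r : ℝ) ^ 2 ≤ n := by exact_mod_cast hn
    nlinarith
  have hP : (0 : ℝ) < (r : ℝ) ^ M := by positivity
  have t0 := tj_le' r M hr hMr
  have t1 := tj_le' r (M + 1) hr (by omega)
  have s1 := sj_ge hSR r (M + 1) hr (by omega)
  have s2 := (hSR r (M + 2)).2.1
  set R : ℝ := (r : ℝ) with hR
  set P : ℝ := R ^ M with hPdef
  have p1 : R ^ (M + 1) = R * P := by rw [pow_succ]; ring
  have p2 : R ^ (M + 2) = R ^ 2 * P := by rw [pow_add]; ring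
  rw [p1] at t1 s1
  rw [p2] at s2
  set x : ℝ := (n : ℝ) with hx
  set g : ℝ := (x + R - 1) * (3 / 4 * (x + R) - 4 / 3) - 2 * x * R with hg
  have hA : (0 : ℝ) < x + R - 1 := by linarith
  have hg9 : (x + R - 1) ^ 2 ≤ 9 * g := by
    rw [hg]
    nlinarith [mul_nonneg (sub_nonneg.2 hn3) (sub_nonneg.2 hr3), mul_nonneg (sub_nonneg.2 hn3)
      (sub_nonneg.2 hn3), mul_nonneg (sub_nonneg.2 hr3) (sub_nonneg.2 hr3)]
  have hgpos : 0 < g := by nlinarith [pow_pos hA 2]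
  have hbr : R * P * g ≤ (x + R - 1) * ((x + R) * sj r (M + 1) - tj r (M + 1)) -
      2 * x * sj r (M + 2) := by
    have h1 : (x + R) * (3 / 4 * (R * P)) - 4 / 3 * (R * P) ≤
        (x + R) * sj r (M + 1) - tj r (M + 1) := by
      have := mul_le_mul_of_nonneg_left s1 (by linarith : (0 : ℝ) ≤ x + R)
      linarith
    have h2 := mul_le_mul_of_nonneg_left h1 hA.le
    have h3 : 2 * x * sj r (M + 2) ≤ 2 * x * (R ^ 2 * P) :=
      mul_le_mul_of_nonneg_left s2 (by linarith)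
    have h4 : R * P * g = (x + R - 1) * ((x + R) * (3 / 4 * (R * P)) - 4 / 3 * (R * P)) -
        2 * x * (R ^ 2 * P) := by
      rw [hg]; ring
    rw [h4]
    linarith
  have hRPg : 0 < R * P * g := by positivity
  have hc0 : (0 : ℝ) ≤ c := le_trans (by positivity) hc
  calc (x + R - 1) ^ 4 * tj r M ≤ (x + R - 1) ^ 4 * (4 / 3 * P) :=
        mul_le_mul_of_nonneg_left t0 (by positivity)
    _ = 4 / 3 * P * ((x + R - 1) ^ 2 * (x + R - 1) ^ 2) := by ring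
    _ < 4 / 3 * P * ((x + R) ^ 2 * (9 * g)) := by
        apply mul_lt_mul_of_pos_left _ (by positivity)
        have h6 : (x + R - 1) ^ 2 < (x + R) ^ 2 := by nlinarith
        have h7 : 0 < (x + R - 1) ^ 2 := by positivity
        calc (x + R - 1) ^ 2 * (x + R - 1) ^ 2 < (x + R) ^ 2 * (x + R - 1) ^ 2 :=
              mul_lt_mul_of_pos_right h6 h7
          _ ≤ (x + R) ^ 2 * (9 * g) := mul_le_mul_of_nonneg_left hg9 (by positivity)
    _ ≤ 4 * (x + R) ^ 2 * (R * P * g) := by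
        have h5 : 0 ≤ P * ((x + R) ^ 2 * g) := by positivity
        nlinarith [mul_nonneg h5 (sub_nonneg.2 hr3)]
    _ ≤ 4 * c * (R * P * g) := by
        apply mul_le_mul_of_nonneg_right _ hRPg.le
        linarith
    _ ≤ 4 * c * ((x + R - 1) * ((x + R) * sj r (M + 1) - tj r (M + 1)) -
          2 * x * sj r (M + 2)) :=
        mul_le_mul_of_nonneg_left hbr (by linarith)

end Pool.Agent.Helper69.EQ.N2
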